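import Pool.Agent.X317.RP.Final

/-!
# The degree of a Kodiyalam polynomial can depend on the field

Consider the polynomial ring in nine variables: `y_0, …, y_5` (indices `0, …, 5`), `a` (index `6`), `b`
(index `7`) and `z` (index `8`). Let `Q` be the Stanley-Reisner ideal of the triangulation of the real
projective plane with six vertices, generated by the ten monomials `∏_{t ∈ T} y_t`, `T ∈ NF`. The
monomial ideal of the example is

  `I = (a⁴, a³b, ab³, b⁴) + a²b²Q + (z)`;

the finite set of the exponents of its generators is `GG` (`ab p q` is the exponent of `a^p b^q` and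
`ind T` the exponent of `∏_{t ∈ T} y_t`).

`betti k M i = dim_k Tor_i(M, k)` is the dimension of the Koszul homology of degree `i` of the variables
with values in `M`, and `IsKodiyalam k G i P` says that `P(ℓ) = β_i(I_k^ℓ)` for all large `ℓ`, `I_k` being
the ideal generated by the monomials with exponents in `G`.

**Theorem.** For every field `k` and all `ℓ ≥ 1`, `β_6(I_k^ℓ)` is `1` if `k` has characteristic two and
`0` otherwise. So the Kodiyalam polynomial `𝔓_6(I)` is `1` (of degree `0`) in characteristic two and `0` (of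
degree `-∞`) in all other characteristics: the answer to Q1 is positive.
-/

set_option autoImplicit false
set_option linter.all false

open Pool.Agent.X317.Kos Pool.Agent.X317.RP

namespace Pool.Agent.Results.MP_76aa63_al.DegreeDependsOnField

/-- `P` is the `i`-th Kodiyalam polynomial over `k` of the monomial ideal with generators `G`. -/
def IsKodiyalam (k : Type*) [Field k] {n : ℕ} (G : Finset (Fin n →₀ ℕ)) (i : ℕ)
    (P : Polynomial ℚ) : Prop :=
  ∃ N : ℕ, ∀ ℓ : ℕ, N ≤ ℓ → (betti (n := n) k ↥(monIdeal k G ^ ℓ) i : ℚ) = P.eval (ℓ : ℚ)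

theorem unique {k : Type*} [Field k] {n : ℕ} {G : Finset (Fin n →₀ ℕ)} {i : ℕ}
    {P P' : Polynomial ℚ} (h : IsKodiyalam k G i P) (h' : IsKodiyalam k G i P') : P' = P := by
  obtain ⟨N, hN⟩ := h
  obtain ⟨N', hN'⟩ := h'
  refine Polynomial.eq_of_infinite_eval_eq P' P ?_
  refine Set.Infinite.mono (s := (fun ℓ : ℕ => (ℓ : ℚ)) '' Set.Ici (max N N')) ?_ ?_
  · rintro _ ⟨ℓ, hℓ, rfl⟩
    have h1 := Set.mem_Ici.1 hℓ
    rw [Set.mem_ofPred_eq, ← hN' ℓ ((le_max_right _ _).trans h1), ← hN ℓ ((le_max_left _ _).trans h1)]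
  · exact Set.Infinite.image (fun a _ b _ hab => by exact_mod_cast hab) (Set.Ici_infinite _)

theorem result (k : Type*) [Field k] :
    (∀ ℓ : ℕ, 1 ≤ ℓ → betti (n := 9) k ↥(monIdeal k GG ^ ℓ) 6 = open Classical in
      if (2 : k) = 0 then 1 else 0) ∧
    ∃ P : Polynomial ℚ, IsKodiyalam k GG 6 P ∧ (∀ P', IsKodiyalam k GG 6 P' → P' = P) ∧
      P.degree = open Classical in if (2 : k) = 0 then 0 else ⊥ := by
  classical
  have h : ∀ ℓ : ℕ, 1 ≤ ℓ → betti (n := 9) k ↥(monIdeal k GG ^ ℓ) 6 =
      if (2 : k) = 0 then 1 else 0 := by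
    intro ℓ hℓ
    obtain ⟨h1, h2⟩ := main k hℓ
    split_ifs with h3
    · exact h2 h3
    · exact h1 h3
  refine ⟨h, ?_⟩
  by_cases h2 : (2 : k) = 0
  · have h3 : IsKodiyalam k GG 6 1 := ⟨1, fun ℓ hℓ => by
      rw [h ℓ hℓ, if_pos h2, Polynomial.eval_one, Nat.cast_one]⟩
    exact ⟨1, h3, fun P' hP' => unique h3 hP', by rw [if_pos h2, Polynomial.degree_one]⟩
  · have h3 : IsKodiyalam k GG 6 0 := ⟨1, fun ℓ hℓ => by
      rw [h ℓ hℓ, if_neg h2, Polynomial.eval_zero, Nat.cast_zero]⟩
    exact ⟨0, h3, fun P' hP' => unique h3 hP', by rw [if_neg h2, Polynomial.degree_zero]⟩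

end Pool.Agent.Results.MP_76aa63_al.DegreeDependsOnField
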